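import Pool.Agent.W471.TateDefs

set_option autoImplicit false
set_option linter.unusedSectionVars false

open scoped TensorProduct
open Filter Topology

namespace Pool.Agent.W471

section Kappa

variable (p : ℕ) [hp : Fact p.Prime]

theorem norm_p_lt : ‖(p : ℤ_[p])‖ < 1 := by
  rw [PadicInt.norm_p]
  have : (1 : ℝ) < p := by exact_mod_cast hp.out.one_lt
  exact inv_lt_one_of_one_lt₀ this

theorem tendsto_p : Tendsto (fun n : ℕ => ((p : ℤ_[p])) ^ n) atTop (𝓝 0) :=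
  tendsto_pow_atTop_nhds_zero_of_norm_lt_one (norm_p_lt p)

/-- The continuous character `x ↦ (1 + p) ^ x`. -/
noncomputable def chi : AddChar ℤ_[p] ℤ_[p] :=
  PadicInt.addChar_of_value_at_one (p : ℤ_[p]) (tendsto_p p)

theorem chi_one : chi p 1 = 1 + p := PadicInt.addChar_of_value_at_one_def _

theorem chi_cont : Continuous (chi p) := PadicInt.continuous_addChar_of_value_at_one _

theorem chi_mul_neg (x : ℤ_[p]) : chi p x * chi p (-x) = 1 := by
  rw [← AddChar.map_add_eq_mul, add_neg_cancel, AddChar.map_zero_eq_one]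

theorem chi_norm (x : ℤ_[p]) : ‖chi p x‖ = 1 := by
  have h := congrArg norm (chi_mul_neg p x)
  rw [norm_mul, norm_one] at h
  have h1 : ‖chi p x‖ ≤ 1 := PadicInt.norm_le_one _
  have h2 : ‖chi p (-x)‖ ≤ 1 := PadicInt.norm_le_one _
  have h3 : 0 ≤ ‖chi p x‖ := norm_nonneg _
  nlinarith

theorem chi_mul_of_eq_one {x : ℤ_[p]} (hx : chi p x = 1) (y : ℤ_[p]) : chi p (y * x) = 1 := by
  have h1 : Continuous fun y : ℤ_[p] => chi p (y * x) := (chi_cont p).comp (by fun_prop)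
  have h2 : (fun y : ℤ_[p] => chi p (y * x)) = fun _ => (1 : ℤ_[p]) := by
    refine PadicInt.denseRange_natCast.equalizer h1 continuous_const (funext fun n => ?_)
    show chi p ((n : ℤ_[p]) * x) = 1
    rw [← nsmul_eq_mul, AddChar.map_nsmul_eq_pow, hx, one_pow]
  exact congrFun h2 y

theorem chi_inj {x : ℤ_[p]} (hx : chi p x = 1) : x = 0 := by
  by_contra h0
  obtain ⟨u, hu⟩ : ∃ u : ℤ_[p], u * x = (p : ℤ_[p]) ^ x.valuation := by
    have := PadicInt.unitCoeff_spec h0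
    refine ⟨((PadicInt.unitCoeff h0)⁻¹ : ℤ_[p]ˣ), ?_⟩
    calc (((PadicInt.unitCoeff h0)⁻¹ : ℤ_[p]ˣ) : ℤ_[p]) * x
        = (((PadicInt.unitCoeff h0)⁻¹ : ℤ_[p]ˣ) : ℤ_[p]) *
          ((PadicInt.unitCoeff h0 : ℤ_[p]) * (p : ℤ_[p]) ^ x.valuation) := congrArg _ this
      _ = (p : ℤ_[p]) ^ x.valuation := by rw [← mul_assoc]; simp
  have h1 := chi_mul_of_eq_one p hx u
  rw [hu] at h1
  have h2 : chi p ((p : ℤ_[p]) ^ x.valuation) = (1 + (p : ℤ_[p])) ^ (p ^ x.valuation) := by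
    have : ((p : ℤ_[p]) ^ x.valuation) = (p ^ x.valuation) • (1 : ℤ_[p]) := by
      rw [nsmul_eq_mul]; push_cast; ring
    rw [this, AddChar.map_nsmul_eq_pow, chi_one]
  rw [h2] at h1
  have h3 : ((1 + p) ^ (p ^ x.valuation) : ℕ) = 1 := by
    have : (((1 + p) ^ (p ^ x.valuation) : ℕ) : ℤ_[p]) = ((1 : ℕ) : ℤ_[p]) := by
      push_cast; exact h1
    exact_mod_cast this
  have h4 : 1 < (1 + p) ^ (p ^ x.valuation) :=
    Nat.one_lt_pow (pow_ne_zero _ hp.out.ne_zero) (by have := hp.out.two_le; omega)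
  omega

/-- A square root of `1 - 8 p` in `ℤ_p`. -/
theorem exists_alpha : ∃ α : ℤ_[p], α ^ 2 = 1 - 8 * (p : ℤ_[p]) := by
  have hF := hensels_lemma (p := p) (F := (Polynomial.X ^ 2 - Polynomial.C (1 - 8 * (p : ℤ_[p]))))
    (a := 1) (by
      have h1 : (Polynomial.aeval (1 : ℤ_[p])) (Polynomial.X ^ 2 - Polynomial.C (1 - 8 * (p : ℤ_[p])))
        = 2 ^ 3 * (p : ℤ_[p]) := by
        simp only [map_sub, map_pow, Polynomial.aeval_X, Polynomial.aeval_C, Algebra.algebraMap_self,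
          RingHom.id_apply]
        ring
      have h2 : (Polynomial.aeval (1 : ℤ_[p]))
        (Polynomial.derivative (Polynomial.X ^ 2 - Polynomial.C (1 - 8 * (p : ℤ_[p])))) = 2 := by
        rw [Polynomial.derivative_sub, Polynomial.derivative_C, Polynomial.derivative_X_pow]
        simp
      rw [h1, h2, norm_mul, norm_pow]
      have h3 : ‖(2 : ℤ_[p])‖ ≤ 1 := PadicInt.norm_le_one _
      have h4 : 0 < ‖(2 : ℤ_[p])‖ := norm_pos_iff.2 (by norm_num)
      have h5 : ‖(p : ℤ_[p])‖ < 1 := (norm_p_lt p)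
      have h6 : 0 ≤ ‖(p : ℤ_[p])‖ := norm_nonneg _
      calc ‖(2 : ℤ_[p])‖ ^ 3 * ‖(p : ℤ_[p])‖ ≤ ‖(2 : ℤ_[p])‖ ^ 2 * ‖(p : ℤ_[p])‖ := by
            gcongr ?_ * _
            exact pow_le_pow_of_le_one h4.le h3 (by norm_num)
        _ < ‖(2 : ℤ_[p])‖ ^ 2 * 1 := by gcongr
        _ = ‖(2 : ℤ_[p])‖ ^ 2 := mul_one _)
  obtain ⟨z, hz, -⟩ := hF
  refine ⟨z, ?_⟩
  simp at hz
  linear_combination hz

/-- The chosen square root of `1 - 8 p`. -/
noncomputable def alpha : ℤ_[p] := (exists_alpha p).choose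

theorem alpha_sq : alpha p ^ 2 = 1 - 8 * (p : ℤ_[p]) := (exists_alpha p).choose_spec

theorem alpha_irr (a b : ℤ) (h : (a : ℤ_[p]) * alpha p = b) : a = 0 := by
  by_contra ha
  have h1 : (a : ℤ_[p]) ^ 2 * (1 - 8 * p) = (b : ℤ_[p]) ^ 2 := by
    rw [← h, mul_pow, alpha_sq]
  have h2 : a ^ 2 * (1 - 8 * (p : ℤ)) = b ^ 2 := by
    have : ((a ^ 2 * (1 - 8 * (p : ℤ)) : ℤ) : ℤ_[p]) = ((b ^ 2 : ℤ) : ℤ_[p]) := by
      push_cast; exact h1
    exact_mod_cast this
  have h3 : 0 < a ^ 2 := by positivity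
  have h4 : (2 : ℤ) ≤ p := by exact_mod_cast hp.out.two_le
  nlinarith [sq_nonneg b]

end Kappa

section Ind

variable (p : ℕ) [hp : Fact p.Prime] (K : Type) [Field K] [Algebra ℚ_[p] K]

/-- `(1 + p) ^ x` as a unit of `K`. -/
noncomputable def kapK : ℤ_[p] →+ Additive Kˣ where
  toFun x := Additive.ofMul
    { val := algebraMap ℚ_[p] K (chi p x : ℚ_[p])
      inv := algebraMap ℚ_[p] K (chi p (-x) : ℚ_[p])
      val_inv := by
        rw [← map_mul, ← PadicInt.coe_mul, chi_mul_neg]; simp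
      inv_val := by
        rw [← map_mul, ← PadicInt.coe_mul, mul_comm, chi_mul_neg]; simp }
  map_zero' := by
    apply Additive.toMul.injective
    apply Units.ext
    show algebraMap ℚ_[p] K (chi p 0 : ℚ_[p]) = 1
    rw [AddChar.map_zero_eq_one]; simp
  map_add' a b := by
    apply Additive.toMul.injective
    apply Units.ext
    show algebraMap ℚ_[p] K (chi p (a + b) : ℚ_[p]) =
      algebraMap ℚ_[p] K (chi p a : ℚ_[p]) * algebraMap ℚ_[p] K (chi p b : ℚ_[p])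
    rw [AddChar.map_add_eq_mul, PadicInt.coe_mul, map_mul]

theorem kapK_val (x : ℤ_[p]) :
    ((Additive.toMul (kapK p K x) : Kˣ) : K) = algebraMap ℚ_[p] K (chi p x : ℚ_[p]) := rfl

/-- `p` as a unit of `K`. -/
noncomputable def piK : Kˣ :=
  Units.mk0 (algebraMap ℚ_[p] K (p : ℚ_[p])) (by
    rw [Ne, map_eq_zero]
    exact_mod_cast hp.out.ne_zero)

theorem ind_K (m : ℤ) (x : ℤ_[p])
    (h : m • Additive.ofMul (piK p K) + kapK p K x = 0) : m = 0 ∧ x = 0 := by
  have h1 : ((Additive.toMul (m • Additive.ofMul (piK p K) + kapK p K x) : Kˣ) : K) = 1 := by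
    rw [h]; rfl
  have h2 : algebraMap ℚ_[p] K ((p : ℚ_[p]) ^ m * (chi p x : ℚ_[p])) = algebraMap ℚ_[p] K 1 := by
    rw [map_mul, map_zpow₀, map_one, ← h1]
    rw [toMul_add, Units.val_mul, kapK_val, toMul_zsmul, Units.val_zpow_eq_zpow_val]
    rfl
  have h3 : (p : ℚ_[p]) ^ m * (chi p x : ℚ_[p]) = 1 := (algebraMap ℚ_[p] K).injective h2
  have h4 := congrArg norm h3
  rw [norm_mul, norm_zpow, norm_one, Padic.norm_p, PadicInt.norm_def.symm] at h4
  rw [chi_norm, mul_one] at h4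
  have hp1 : (1 : ℝ) < p := by exact_mod_cast hp.out.one_lt
  have hm : m = 0 := by
    by_contra hm
    rw [inv_zpow', ] at h4
    have := zpow_right_injective₀ (by positivity : (0 : ℝ) < p) hp1.ne'
    have h5 : (p : ℝ) ^ (-m) = (p : ℝ) ^ (0 : ℤ) := by rw [h4, zpow_zero]
    have := this h5
    omega
  refine ⟨hm, ?_⟩
  subst hm
  rw [zpow_zero, one_mul] at h3
  apply chi_inj p
  apply PadicInt.ext
  rw [h3]; rfl

theorem toBar_inj {x : Additive Kˣ} (h : toBar x = 0) : x = 0 := by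
  apply Additive.toMul.injective
  apply Units.ext
  have h1 : (algebraMap K (AlgebraicClosure K)) (Additive.toMul x : Kˣ) = 1 := by
    have := congrArg (fun y : Additive (AlgebraicClosure K)ˣ =>
      ((Additive.toMul y : (AlgebraicClosure K)ˣ) : AlgebraicClosure K)) h
    exact this
  have h2 : (algebraMap K (AlgebraicClosure K)) (Additive.toMul x : Kˣ)
      = algebraMap K (AlgebraicClosure K) 1 := by rw [h1, map_one]
  exact (algebraMap K (AlgebraicClosure K)).injective h2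

/-- `p` in `Kbar^×`. -/
noncomputable def PP : GmBar K := toBar (Additive.ofMul (piK p K))

/-- `(1 + p) ^ x` in `Kbar^×`. -/
noncomputable def kk : ℤ_[p] →+ GmBar K := toBar.comp (kapK p K)

theorem ind (m : ℤ) (x : ℤ_[p]) (h : m • PP p K + kk p K x = 0) : m = 0 ∧ x = 0 := by
  apply ind_K p K m x
  apply toBar_inj
  rw [map_add, map_zsmul]
  exact h

theorem gal_PP (σ : AlgebraicClosure K ≃ₐ[K] AlgebraicClosure K) :
    galBar σ (PP p K) = PP p K := gal_toBar _ _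

theorem gal_kk (σ : AlgebraicClosure K ≃ₐ[K] AlgebraicClosure K) (x : ℤ_[p]) :
    galBar σ (kk p K x) = kk p K x := gal_toBar _ _

end Ind

end Pool.Agent.W471
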