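import Pool.Agent.W471.TateA

set_option autoImplicit false
set_option linter.unusedSectionVars false

open scoped TensorProduct
open Filter Topology

namespace Pool.Agent.W471

section Main

variable (p : ℕ) [hp : Fact p.Prime] (K : Type) [Field K] [Algebra ℚ_[p] K]

/-- The period matrix `[[p (1+p)^α, 1+p], [1+p, p]]` with `α ^ 2 = 1 - 8 p`. -/
noncomputable def QQ : Matrix (Fin 2) (Fin 2) Kˣ :=
  !![piK p K * Additive.toMul (kapK p K (alpha p)), Additive.toMul (kapK p K 1);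
     Additive.toMul (kapK p K 1), piK p K]

theorem per0 (l : Fin 2 → ℤ) : periodHom (QQ p K) l 0 =
    l 0 • (PP p K + kk p K (alpha p)) + l 1 • kk p K 1 := by
  show ∑ j, l j • toBar (Additive.ofMul (QQ p K 0 j)) = _
  rw [Fin.sum_univ_two]
  congr 1
  congr 1
  show toBar (Additive.ofMul (piK p K * Additive.toMul (kapK p K (alpha p)))) = _
  rw [ofMul_mul, map_add]
  rfl

theorem per1 (l : Fin 2 → ℤ) : periodHom (QQ p K) l 1 =
    l 0 • kk p K 1 + l 1 • PP p K := by
  show ∑ j, l j • toBar (Additive.ofMul (QQ p K 1 j)) = _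
  rw [Fin.sum_univ_two]
  rfl

theorem per_inj {l : Fin 2 → ℤ} (h : periodHom (QQ p K) l = 0) : l = 0 := by
  have h0 : l 0 • (PP p K + kk p K (alpha p)) + l 1 • kk p K 1 = 0 := by
    rw [← per0, h]; rfl
  have h1 : l 0 • kk p K 1 + l 1 • PP p K = 0 := by
    rw [← per1, h]; rfl
  have e0 : l 0 = 0 := by
    refine (ind p K (l 0) ((l 0 : ℤ_[p]) * alpha p + l 1) ?_).1
    rw [map_add, ← h0]
    have a1 : kk p K ((l 0 : ℤ_[p]) * alpha p) = l 0 • kk p K (alpha p) := by
      rw [← map_zsmul, zsmul_eq_mul]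
    have a2 : kk p K ((l 1 : ℤ_[p])) = l 1 • kk p K 1 := by
      rw [← map_zsmul]; congr 1; rw [zsmul_eq_mul, mul_one]
    rw [a1, a2]
    module
  have e1 : l 1 = 0 := by
    refine (ind p K (l 1) ((l 0 : ℤ_[p])) ?_).1
    rw [← h1]
    have a2 : kk p K ((l 0 : ℤ_[p])) = l 0 • kk p K 1 := by
      rw [← map_zsmul]; congr 1; rw [zsmul_eq_mul, mul_one]
    rw [a2]
    module
  funext i
  fin_cases i
  · exact e0
  · exact e1

/-- `ε_n` with `p ^ n ε_n = α_n - α`. -/
theorem exists_eps (n : ℕ) : ∃ e : ℤ_[p], (p : ℤ_[p]) ^ n * e = ((alpha p).appr n : ℕ) - alpha p := by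
  have h := PadicInt.appr_spec n (alpha p)
  rw [Ideal.mem_span_singleton] at h
  obtain ⟨e, he⟩ := h
  exact ⟨-e, by rw [mul_neg, ← he]; ring⟩

/-- The defect `ε_n = (α_n - α) / p ^ n`. -/
noncomputable def eps (n : ℕ) : ℤ_[p] := (exists_eps p n).choose

theorem eps_spec (n : ℕ) :
    (p : ℤ_[p]) ^ n * eps p n = ((alpha p).appr n : ℕ) - alpha p := (exists_eps p n).choose_spec

theorem exists_dd (n : ℕ) : ∃ d : ℤ,
    (((alpha p).appr (n + 1) : ℕ) : ℤ) = ((alpha p).appr n : ℕ) + (p : ℤ) ^ n * d := by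
  have h := appr_succ_zmod (alpha p) n
  rw [ZMod.natCast_eq_natCast_iff, Nat.modEq_iff_dvd] at h
  obtain ⟨d, hd⟩ := h
  refine ⟨-d, ?_⟩
  push_cast at hd
  linear_combination -hd

/-- The integer `d_n = (α_(n+1) - α_n) / p ^ n`. -/
noncomputable def dd (n : ℕ) : ℤ := (exists_dd p n).choose

theorem dd_spec (n : ℕ) :
    (((alpha p).appr (n + 1) : ℕ) : ℤ) = ((alpha p).appr n : ℕ) + (p : ℤ) ^ n * dd p n :=
  (exists_dd p n).choose_spec

theorem eps_succ (n : ℕ) : (p : ℤ_[p]) * eps p (n + 1) = dd p n + eps p n := by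
  have h1 := eps_spec p n
  have h2 := eps_spec p (n + 1)
  have h3 : (((alpha p).appr (n + 1) : ℕ) : ℤ_[p]) =
      ((alpha p).appr n : ℕ) + (p : ℤ_[p]) ^ n * dd p n := by
    have := congrArg (fun z : ℤ => (z : ℤ_[p])) (dd_spec p n)
    push_cast at this
    exact this
  have hne : (p : ℤ_[p]) ^ n ≠ 0 := pow_ne_zero _ (by exact_mod_cast hp.out.ne_zero)
  apply mul_left_cancel₀ hne
  rw [h3] at h2
  linear_combination h2 - h1

/-- The element `w_n = (1 + p) ^ ε_n`. -/
noncomputable def ww (n : ℕ) : GmBar K := kk p K (eps p n)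

theorem ww_spec (n : ℕ) :
    ((alpha p).appr n : ℤ) • kk p K 1 = kk p K (alpha p) + ((p : ℤ) ^ n) • ww p K n := by
  unfold ww
  rw [← map_zsmul, ← map_zsmul, ← map_add]
  congr 1
  rw [zsmul_eq_mul, zsmul_eq_mul]
  push_cast
  rw [eps_spec]
  ring

theorem ww_succ (n : ℕ) : (p : ℤ) • ww p K (n + 1) = dd p n • kk p K 1 + ww p K n := by
  unfold ww
  rw [← map_zsmul, ← map_zsmul, ← map_add]
  congr 1
  rw [zsmul_eq_mul, zsmul_eq_mul]
  push_cast
  rw [eps_succ]
  ring

/-- The map `S_n` on pairs (torus point, lattice vector). -/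
noncomputable def SS (n : ℕ) (x : Fin 2 → GmBar K) (l : Fin 2 → ℤ) : Fin 2 → GmBar K :=
  ![((alpha p).appr n : ℤ) • x 0 + x 1 - l 1 • ww p K n, x 0 + l 0 • ww p K n]

theorem SS_add (n : ℕ) (x y : Fin 2 → GmBar K) (l m : Fin 2 → ℤ) :
    SS p K n (x + y) (l + m) = SS p K n x l + SS p K n y m := by
  funext i
  fin_cases i
  · show ((alpha p).appr n : ℤ) • (x 0 + y 0) + (x 1 + y 1) - (l 1 + m 1) • ww p K n =
      (((alpha p).appr n : ℤ) • x 0 + x 1 - l 1 • ww p K n) +
      (((alpha p).appr n : ℤ) • y 0 + y 1 - m 1 • ww p K n)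
    module
  · show (x 0 + y 0) + (l 0 + m 0) • ww p K n = (x 0 + l 0 • ww p K n) + (y 0 + m 0 • ww p K n)
    module

theorem SS_sub (n : ℕ) (x y : Fin 2 → GmBar K) (l m : Fin 2 → ℤ) :
    SS p K n (x - y) (l - m) = SS p K n x l - SS p K n y m := by
  have := SS_add p K n (x - y) y (l - m) m
  rw [sub_add_cancel, sub_add_cancel] at this
  rw [this, add_sub_cancel_right]

/-- `(x, l)` is a level `n` pair if `p ^ n x` is the period of `l`. -/
def HH (n : ℕ) (x : Fin 2 → GmBar K) (l : Fin 2 → ℤ) : Prop :=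
  (p ^ n : ℕ) • x = periodHom (QQ p K) l

theorem SS_per (n : ℕ) (μ : Fin 2 → ℤ) :
    SS p K n (periodHom (QQ p K) μ) ((p ^ n : ℕ) • μ) =
      periodHom (QQ p K) ![((alpha p).appr n : ℤ) * μ 0 + μ 1, μ 0] := by
  have hw := ww_spec p K n
  funext i
  fin_cases i
  · show ((alpha p).appr n : ℤ) • (periodHom (QQ p K) μ) 0 + (periodHom (QQ p K) μ) 1
      - ((p ^ n : ℕ) • μ) 1 • ww p K n = periodHom (QQ p K) _ 0
    rw [per0, per1, per0]
    have e : ((p ^ n : ℕ) • μ) 1 = (p : ℤ) ^ n * μ 1 := by simp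
    rw [e]
    show ((alpha p).appr n : ℤ) • (μ 0 • (PP p K + kk p K (alpha p)) + μ 1 • kk p K 1)
      + (μ 0 • kk p K 1 + μ 1 • PP p K) - ((p : ℤ) ^ n * μ 1) • ww p K n =
      (((alpha p).appr n : ℤ) * μ 0 + μ 1) • (PP p K + kk p K (alpha p)) + μ 0 • kk p K 1
    have h2 : ((alpha p).appr n : ℤ) • μ 1 • kk p K 1 =
        μ 1 • (kk p K (alpha p) + ((p : ℤ) ^ n) • ww p K n) := by rw [← hw]; module
    have h3 : ((alpha p).appr n : ℤ) • (μ 0 • (PP p K + kk p K (alpha p)) + μ 1 • kk p K 1) =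
      ((alpha p).appr n : ℤ) • (μ 0 • (PP p K + kk p K (alpha p))) +
        μ 1 • (kk p K (alpha p) + ((p : ℤ) ^ n) • ww p K n) := by rw [← h2]; module
    rw [h3]
    module
  · show (periodHom (QQ p K) μ) 0 + ((p ^ n : ℕ) • μ) 0 • ww p K n = periodHom (QQ p K) _ 1
    rw [per0, per1]
    have e : ((p ^ n : ℕ) • μ) 0 = (p : ℤ) ^ n * μ 0 := by simp
    rw [e]
    show (μ 0 • (PP p K + kk p K (alpha p)) + μ 1 • kk p K 1)
      + ((p : ℤ) ^ n * μ 0) • ww p K n =
      (((alpha p).appr n : ℤ) * μ 0 + μ 1) • kk p K 1 + μ 0 • PP p K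
    have h2 : (((alpha p).appr n : ℤ) * μ 0 + μ 1) • kk p K 1 =
        μ 0 • (kk p K (alpha p) + ((p : ℤ) ^ n) • ww p K n) + μ 1 • kk p K 1 := by
      rw [← hw]; module
    rw [h2]
    module

theorem SS_well {n : ℕ} {x : Fin 2 → GmBar K} {l : Fin 2 → ℤ} (h : HH p K n x l)
    (hx : x ∈ periodLattice (QQ p K)) : SS p K n x l ∈ periodLattice (QQ p K) := by
  obtain ⟨μ, rfl⟩ := hx
  unfold HH at h
  rw [← map_nsmul] at h
  have : l = (p ^ n : ℕ) • μ := by
    have h2 : periodHom (QQ p K) (l - (p ^ n : ℕ) • μ) = 0 := by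
      rw [map_sub, h, sub_self]
    exact sub_eq_zero.1 (per_inj p K h2)
  rw [this, SS_per]
  exact ⟨_, rfl⟩

theorem SS_wd {n : ℕ} {x y : Fin 2 → GmBar K} {l m : Fin 2 → ℤ} (hx : HH p K n x l)
    (hy : HH p K n y m)
    (h : toPoints (QQ p K) x = toPoints (QQ p K) y) :
    toPoints (QQ p K) (SS p K n x l) = toPoints (QQ p K) (SS p K n y m) := by
  rw [← sub_eq_zero, ← map_sub, toPoints_eq_zero] at h ⊢
  rw [← SS_sub]
  apply SS_well p K _ h
  unfold HH at hx hy ⊢
  rw [smul_sub, hx, hy, map_sub]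

theorem exists_rep (f : TateModule p (Points (QQ p K))) (n : ℕ) :
    ∃ x : Fin 2 → GmBar K, ∃ l : Fin 2 → ℤ, HH p K n x l ∧
      toPoints (QQ p K) x = f.1 n := by
  obtain ⟨x, hx⟩ := toPoints_surj _ (f.1 n)
  have h1 := tm_torsion f n
  rw [← hx, ← map_nsmul, toPoints_eq_zero] at h1
  obtain ⟨l, hl⟩ := h1
  exact ⟨x, l, hl.symm, hx⟩

/-- The component of the extra endomorphism. -/
noncomputable def phiC (f : TateModule p (Points (QQ p K))) (n : ℕ) : Points (QQ p K) :=
  toPoints (QQ p K) (SS p K n (exists_rep p K f n).choose (exists_rep p K f n).choose_spec.choose)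

theorem phiC_eq (f : TateModule p (Points (QQ p K))) (n : ℕ) {x : Fin 2 → GmBar K}
    {l : Fin 2 → ℤ} (hx : HH p K n x l)
    (h : toPoints (QQ p K) x = f.1 n) :
    phiC p K f n = toPoints (QQ p K) (SS p K n x l) := by
  refine SS_wd p K (exists_rep p K f n).choose_spec.choose_spec.1 hx ?_
  rw [h]
  exact (exists_rep p K f n).choose_spec.choose_spec.2

theorem phiC_zero (f : TateModule p (Points (QQ p K))) : phiC p K f 0 = 0 := by
  have hx : HH p K 0 0 0 := by unfold HH; simp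
  rw [phiC_eq p K f 0 hx (by rw [tm_zero f, map_zero])]
  rw [toPoints_eq_zero]
  exact SS_well p K hx (AddSubgroup.zero_mem _)

theorem phiC_succ (f : TateModule p (Points (QQ p K))) (n : ℕ) :
    p • phiC p K f (n + 1) = phiC p K f n := by
  obtain ⟨y, l, hy, hyf⟩ := exists_rep p K f (n + 1)
  have hx : HH p K n (p • y) l := by
    unfold HH at hy ⊢
    rw [← hy, ← mul_smul, pow_succ]
  rw [phiC_eq p K f (n + 1) hy hyf, phiC_eq p K f n hx
    (by rw [map_nsmul, hyf, tm_succ f])]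
  rw [← map_nsmul, ← sub_eq_zero, ← map_sub, toPoints_eq_zero]
  refine ⟨![dd p n * l 0, 0], ?_⟩
  have hw := ww_succ p K n
  have hd := dd_spec p n
  have hy0 : ((p : ℤ) ^ (n + 1)) • y 0 = l 0 • (PP p K + kk p K (alpha p)) + l 1 • kk p K 1 := by
    rw [← per0]
    unfold HH at hy
    rw [← hy]
    show _ = (p ^ (n + 1) : ℕ) • y 0
    rw [← natCast_zsmul]
    push_cast
    rfl
  funext i
  fin_cases i
  · show periodHom (QQ p K) _ 0 = p • (((alpha p).appr (n + 1) : ℤ) • y 0 + y 1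
      - l 1 • ww p K (n + 1)) - (((alpha p).appr n : ℤ) • (p • y 0) + p • y 1 - l 1 • ww p K n)
    rw [per0, hd]
    show (dd p n * l 0) • (PP p K + kk p K (alpha p)) + (0 : ℤ) • kk p K 1 = _
    have e1 : (p : ℕ) • (((((alpha p).appr n : ℕ) : ℤ) + (p : ℤ) ^ n * dd p n) • y 0 + y 1
      - l 1 • ww p K (n + 1)) - (((alpha p).appr n : ℤ) • (p • y 0) + p • y 1 - l 1 • ww p K n)
      = dd p n • (((p : ℤ) ^ (n + 1)) • y 0) - l 1 • ((p : ℤ) • ww p K (n + 1)) +
        l 1 • ww p K n := by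
      simp only [← natCast_zsmul]
      rw [pow_succ]
      module
    rw [e1, hy0, hw]
    module
  · show periodHom (QQ p K) _ 1 = p • (y 0 + l 0 • ww p K (n + 1)) -
      (p • y 0 + l 0 • ww p K n)
    rw [per1]
    show (dd p n * l 0) • kk p K 1 + (0 : ℤ) • PP p K = _
    have e1 : p • (y 0 + l 0 • ww p K (n + 1)) - (p • y 0 + l 0 • ww p K n) =
      l 0 • ((p : ℤ) • ww p K (n + 1)) - l 0 • ww p K n := by
      simp only [← natCast_zsmul]
      module
    rw [e1, hw]
    module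

/-- The extra endomorphism of the Tate module. -/
noncomputable def phiT : TateModule p (Points (QQ p K)) →ₗ[ℤ_[p]] TateModule p (Points (QQ p K)) where
  toFun f := ⟨phiC p K f, phiC_zero p K f, phiC_succ p K f⟩
  map_add' f g := tm_ext fun n => by
    obtain ⟨x, l, hx, hxf⟩ := exists_rep p K f n
    obtain ⟨y, m, hy, hyg⟩ := exists_rep p K g n
    have hxy : HH p K n (x + y) (l + m) := by
      unfold HH at hx hy ⊢
      rw [smul_add, hx, hy, map_add]
    show phiC p K (f + g) n = phiC p K f n + phiC p K g n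
    rw [phiC_eq p K f n hx hxf, phiC_eq p K g n hy hyg, phiC_eq p K (f + g) n hxy
      (by rw [map_add, hxf, hyg, tm_add]), SS_add, map_add]
  map_smul' z f := tm_ext fun n => by
    obtain ⟨x, l, hx, hxf⟩ := exists_rep p K f n
    have hz : HH p K n (z.appr n • x) (z.appr n • l) := by
      unfold HH at hx ⊢
      rw [map_nsmul, ← hx, smul_comm]
    show phiC p K (z • f) n = _
    rw [RingHom.id_apply, tm_smul_apply]
    show _ = z.appr n • phiC p K f n
    rw [phiC_eq p K f n hx hxf, phiC_eq p K (z • f) n hz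
      (by rw [map_nsmul, hxf, tm_smul_apply]), ← map_nsmul]
    congr 1
    funext i
    fin_cases i
    · show ((alpha p).appr n : ℤ) • (z.appr n • x 0) + z.appr n • x 1 -
        (z.appr n • l 1) • ww p K n =
        z.appr n • (((alpha p).appr n : ℤ) • x 0 + x 1 - l 1 • ww p K n)
      simp only [← natCast_zsmul, smul_eq_mul]
      module
    · show z.appr n • x 0 + (z.appr n • l 0) • ww p K n = z.appr n • (x 0 + l 0 • ww p K n)
      simp only [← natCast_zsmul, smul_eq_mul]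
      module

theorem phiT_apply (f : TateModule p (Points (QQ p K))) (n : ℕ) :
    (phiT p K f).1 n = phiC p K f n := rfl

theorem gal_ww (σ : AlgebraicClosure K ≃ₐ[K] AlgebraicClosure K) (n : ℕ) :
    galBar σ (ww p K n) = ww p K n := gal_kk _ _ _ _

theorem phiT_gal (σ : AlgebraicClosure K ≃ₐ[K] AlgebraicClosure K)
    (f : TateModule p (Points (QQ p K))) :
    phiT p K (TateModule.map p (galAct (QQ p K) σ) f) =
      TateModule.map p (galAct (QQ p K) σ) (phiT p K f) := by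
  refine tm_ext fun n => ?_
  obtain ⟨x, l, hx, hxf⟩ := exists_rep p K f n
  have hz : HH p K n (torusGal σ x) l := by
    unfold HH at hx ⊢
    rw [← map_nsmul, hx, torusGal_periodHom]
  rw [phiT_apply, tm_map_apply, phiT_apply, phiC_eq p K f n hx hxf,
    phiC_eq p K _ n hz (by rw [tm_map_apply, ← hxf, galAct_toPoints]), galAct_toPoints]
  congr 1
  funext i
  fin_cases i
  · show _ = galBar σ (((alpha p).appr n : ℤ) • x 0 + x 1 - l 1 • ww p K n)
    rw [map_sub, map_add, map_zsmul, map_zsmul, gal_ww]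
    rfl
  · show _ = galBar σ (x 0 + l 0 • ww p K n)
    rw [map_add, map_zsmul, gal_ww]
    rfl

end Main

end Pool.Agent.W471
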