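import Pool.Agent.W471.TateB

set_option autoImplicit false
set_option linter.unusedSectionVars false

open scoped TensorProduct
open Filter Topology

namespace Pool.Agent.W471

section Main

variable (p : ℕ) [hp : Fact p.Prime] (K : Type) [Field K] [Algebra ℚ_[p] K]

/-- Every endomorphism of `A` is multiplication by an integer. -/
theorem endo_scalar (f : Points (QQ p K) →+ Points (QQ p K)) (hf : IsEndo (QQ p K) f) :
    ∃ m : ℤ, ∀ a, f a = m • a := by
  obtain ⟨N, hN⟩ := hf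
  have key : ∀ μ : Fin 2 → ℤ, ∃ ν : Fin 2 → ℤ,
      periodHom (QQ p K) ν = torusEnd N (periodHom (QQ p K) μ) := by
    intro μ
    have h1 : toPoints (QQ p K) (periodHom (QQ p K) μ) = 0 :=
      (toPoints_eq_zero _ _).2 ⟨μ, rfl⟩
    have h2 := hN (periodHom (QQ p K) μ)
    rw [h1, map_zero] at h2
    exact (toPoints_eq_zero _ _).1 h2.symm
  obtain ⟨ν, hν⟩ := key ![1, 0]
  have c : ∀ z : ℤ, kk p K (z : ℤ_[p]) = z • kk p K 1 := fun z => by
    rw [← map_zsmul]; congr 1; rw [zsmul_eq_mul, mul_one]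
  have ca : ∀ z : ℤ, kk p K ((z : ℤ_[p]) * alpha p) = z • kk p K (alpha p) := fun z => by
    rw [← map_zsmul, zsmul_eq_mul]
  have E0 := congrFun hν 0
  have E1 := congrFun hν 1
  have T : ∀ i, torusEnd N (periodHom (QQ p K) ![1, 0]) i =
      N i 0 • (PP p K + kk p K (alpha p)) + N i 1 • kk p K 1 := by
    intro i
    show ∑ j, N i j • (periodHom (QQ p K) ![1, 0]) j = _
    rw [Fin.sum_univ_two, per0, per1]
    show N i 0 • ((1 : ℤ) • (PP p K + kk p K (alpha p)) + (0 : ℤ) • kk p K 1) +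
      N i 1 • ((1 : ℤ) • kk p K 1 + (0 : ℤ) • PP p K) = _
    module
  rw [T, per0] at E0
  rw [T, per1] at E1
  have A0 := ind p K (ν 0 - N 0 0) ((ν 0 - N 0 0 : ℤ) * alpha p + (ν 1 - N 0 1 : ℤ)) (by
    rw [map_add, ca, c]
    rw [← sub_eq_zero] at E0
    rw [← E0]; module)
  have A1 := ind p K (ν 1 - N 1 0) (-((N 1 0 : ℤ) : ℤ_[p]) * alpha p + (ν 0 - N 1 1 : ℤ)) (by
    rw [map_add, neg_mul, map_neg, ca, c]
    rw [← sub_eq_zero] at E1
    rw [← E1]; module)
  obtain ⟨a0, a0'⟩ := A0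
  obtain ⟨a1, a1'⟩ := A1
  have b1 : ν 1 = N 0 1 := by
    rw [a0, Int.cast_zero, zero_mul, zero_add] at a0'
    have : (ν 1 - N 0 1 : ℤ) = 0 := by exact_mod_cast a0'
    omega
  have b2 : N 1 0 = 0 := by
    apply alpha_irr p (N 1 0) (ν 0 - N 1 1 : ℤ)
    linear_combination -a1'
  have b3 : ν 0 = N 1 1 := by
    rw [b2] at a1'
    have : (ν 0 - N 1 1 : ℤ) = 0 := by
      have h : ((ν 0 - N 1 1 : ℤ) : ℤ_[p]) = 0 := by
        rw [← a1']; push_cast; ring
      exact_mod_cast h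
    omega
  refine ⟨N 0 0, fun a => ?_⟩
  obtain ⟨x, rfl⟩ := toPoints_surj _ a
  rw [hN, ← map_zsmul]
  congr 1
  funext i
  show ∑ j, N i j • x j = N 0 0 • x i
  rw [Fin.sum_univ_two]
  have n01 : N 0 1 = 0 := by omega
  have n11 : N 1 1 = N 0 0 := by omega
  fin_cases i
  · show N 0 0 • x 0 + N 0 1 • x 1 = N 0 0 • x 0
    rw [n01]; module
  · show N 1 0 • x 0 + N 1 1 • x 1 = N 0 0 • x 1
    rw [b2, n11]; module

/-! ### Roots of unity -/

variable [CharZero K]

theorem exists_div (x : GmBar K) : ∃ y : GmBar K, p • y = x := by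
  obtain ⟨z, hz⟩ := IsAlgClosed.exists_pow_nat_eq
    ((Additive.toMul (show Additive (AlgebraicClosure K)ˣ from x) : (AlgebraicClosure K)ˣ) :
      AlgebraicClosure K) hp.out.pos
  have hz0 : z ≠ 0 := by
    rintro rfl
    rw [zero_pow hp.out.ne_zero] at hz
    exact Units.ne_zero _ hz.symm
  refine ⟨(Additive.ofMul (Units.mk0 z hz0) : Additive (AlgebraicClosure K)ˣ), ?_⟩
  apply Additive.toMul.injective
  apply Units.ext
  exact hz

theorem exists_zeta1 : ∃ y : GmBar K, p • y = 0 ∧ y ≠ 0 := by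
  have : NeZero (p : AlgebraicClosure K) := ⟨by exact_mod_cast hp.out.ne_zero⟩
  obtain ⟨z, hz⟩ := HasEnoughRootsOfUnity.exists_primitiveRoot (AlgebraicClosure K) p
  have hz0 : z ≠ 0 := hz.ne_zero hp.out.ne_zero
  refine ⟨(Additive.ofMul (Units.mk0 z hz0) : Additive (AlgebraicClosure K)ˣ), ?_, ?_⟩
  · apply Additive.toMul.injective
    apply Units.ext
    exact hz.pow_eq_one
  · intro h
    have h1 : Units.mk0 z hz0 = 1 := congrArg Additive.toMul h
    have h2 : z = 1 := by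
      have := congrArg Units.val h1
      simpa using this
    exact hz.ne_one hp.out.one_lt h2

/-- A compatible system of `p`-power roots of unity. -/
noncomputable def zeta : ℕ → GmBar K
  | 0 => 0
  | 1 => (exists_zeta1 p K).choose
  | (n + 2) => (exists_div p K (zeta (n + 1))).choose

theorem zeta_succ (n : ℕ) : p • zeta p K (n + 1) = zeta p K n := by
  cases n with
  | zero => exact (exists_zeta1 p K).choose_spec.1
  | succ n => exact (exists_div p K (zeta p K (n + 1))).choose_spec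

theorem zeta_one_ne : zeta p K 1 ≠ 0 := (exists_zeta1 p K).choose_spec.2

theorem zeta_pow (n k : ℕ) : p ^ k • zeta p K (n + k) = zeta p K n := by
  induction k with
  | zero => simp
  | succ k ih => rw [pow_succ, mul_smul, ← add_assoc, zeta_succ, ih]

theorem zeta_tors (n : ℕ) : p ^ n • zeta p K n = 0 := by
  have := zeta_pow p K 0 n
  rwa [zero_add] at this

/-- The elements `(ζ, 1)` and `(1, ζ)` of the Tate module. -/
noncomputable def ee (v : Fin 2 → ℤ) : TateModule p (Points (QQ p K)) :=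
  ⟨fun n => toPoints (QQ p K) (fun i => v i • zeta p K n), by
    refine ⟨?_, fun n => ?_⟩
    · show toPoints (QQ p K) (fun i => v i • (0 : GmBar K)) = 0
      have : (fun i => v i • (0 : GmBar K)) = (0 : Fin 2 → GmBar K) := by
        funext i; simp
      rw [this, map_zero]
    · show p • toPoints (QQ p K) (fun i => v i • zeta p K (n + 1)) = _
      rw [← map_nsmul]
      congr 1
      funext i
      show p • (v i • zeta p K (n + 1)) = v i • zeta p K n
      rw [smul_comm, zeta_succ]⟩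

theorem phiT_ee : phiT p K (ee p K ![1, 0]) =
    alpha p • ee p K ![1, 0] + ee p K ![0, 1] := by
  refine tm_ext fun n => ?_
  have hx : HH p K n (fun i => (![1, 0] : Fin 2 → ℤ) i • zeta p K n) 0 := by
    unfold HH
    rw [map_zero]
    funext i
    show p ^ n • ((![1, 0] : Fin 2 → ℤ) i • zeta p K n) = 0
    rw [smul_comm, zeta_tors, smul_zero]
  rw [phiT_apply, phiC_eq p K _ n hx rfl]
  show _ = (alpha p).appr n • toPoints (QQ p K) (fun i => (![1, 0] : Fin 2 → ℤ) i • zeta p K n)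
    + toPoints (QQ p K) (fun i => (![0, 1] : Fin 2 → ℤ) i • zeta p K n)
  rw [← map_nsmul, ← map_add]
  congr 1
  funext i
  fin_cases i
  · show ((alpha p).appr n : ℤ) • ((1 : ℤ) • zeta p K n) + (0 : ℤ) • zeta p K n - (0 : ℤ) • ww p K n
      = (alpha p).appr n • ((1 : ℤ) • zeta p K n) + (0 : ℤ) • zeta p K n
    simp
  · show (1 : ℤ) • zeta p K n + (0 : ℤ) • ww p K n
      = (alpha p).appr n • ((0 : ℤ) • zeta p K n) + (1 : ℤ) • zeta p K n
    simp

theorem tm_torsionfree (z : ℤ_[p]) (f : TateModule p (Points (QQ p K))) (h : z • f = 0)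
    (hz : z ≠ 0) : f = 0 := by
  have hu := PadicInt.unitCoeff_spec hz
  have h2 : (p : ℤ_[p]) ^ z.valuation • f = 0 := by
    have : ((PadicInt.unitCoeff hz : ℤ_[p]ˣ) : ℤ_[p]) • ((p : ℤ_[p]) ^ z.valuation • f) = 0 := by
      rw [← mul_smul, ← hu, h]
    have h4 : (((PadicInt.unitCoeff hz)⁻¹ : ℤ_[p]ˣ) : ℤ_[p]) •
      (((PadicInt.unitCoeff hz : ℤ_[p]ˣ) : ℤ_[p]) • ((p : ℤ_[p]) ^ z.valuation • f)) =
      (p : ℤ_[p]) ^ z.valuation • f := by
      rw [← mul_smul, Units.inv_mul, one_smul]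
    rw [← h4, this]
    exact smul_zero _
  refine tm_ext fun n => ?_
  have h4 := congrArg (fun g : TateModule p (Points (QQ p K)) => g.1 (n + z.valuation)) h2
  have h5 : ((p : ℤ_[p]) ^ z.valuation • f : TateModule p (Points (QQ p K))) =
      (p ^ z.valuation : ℕ) • f := by
    rw [← Nat.cast_smul_eq_nsmul ℤ_[p]]; push_cast; rfl
  rw [h5] at h4
  have h6 : ((p ^ z.valuation : ℕ) • f : TateModule p (Points (QQ p K))).1
    (n + z.valuation) = (p ^ z.valuation) • f.1 (n + z.valuation) := rfl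
  exact (tm_pow_smul f n z.valuation).symm.trans (h6.symm.trans h4)

theorem ee_indep (a b : ℤ_[p]) (k : ℕ)
    (h : a • ee p K ![1, 0] + (p : ℤ_[p]) ^ k • ee p K ![0, 1] = b • ee p K ![1, 0]) : False := by
  have h1 : (p ^ k : ℕ) • ee p K ![0, 1] = (b - a) • ee p K ![1, 0] := by
    have e1 : (b - a) • ee p K ![1, 0] = b • ee p K ![1, 0] - a • ee p K ![1, 0] :=
      sub_smul _ _ _
    have e2 : (p ^ k : ℕ) • ee p K ![0, 1] = (p : ℤ_[p]) ^ k • ee p K ![0, 1] := by
      rw [← Nat.cast_smul_eq_nsmul ℤ_[p]]; push_cast; rfl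
    rw [e1, ← h, e2]; abel
  have h2 := congrArg (fun g : TateModule p (Points (QQ p K)) => g.1 (k + 1)) h1
  have h3 : (p ^ k) • toPoints (QQ p K) (fun i => (![0, 1] : Fin 2 → ℤ) i • zeta p K (k + 1))
      = (b - a).appr (k + 1) •
      toPoints (QQ p K) (fun i => (![1, 0] : Fin 2 → ℤ) i • zeta p K (k + 1)) := h2
  rw [← map_nsmul, ← map_nsmul, ← sub_eq_zero, ← map_sub, toPoints_eq_zero] at h3
  obtain ⟨l, hl⟩ := h3
  have h4 : l = 0 := by
    have h5 : periodHom (QQ p K) ((p ^ (k + 1) : ℕ) • l) = 0 := by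
      rw [map_nsmul, hl]
      funext i
      show p ^ (k + 1) • (p ^ k • ((![0, 1] : Fin 2 → ℤ) i • zeta p K (k + 1)) -
        (b - a).appr (k + 1) • ((![1, 0] : Fin 2 → ℤ) i • zeta p K (k + 1))) = 0
      have e : p ^ (k + 1) • zeta p K (k + 1) = 0 := zeta_tors p K (k + 1)
      rw [smul_sub, smul_comm (p ^ (k + 1)) (p ^ k), smul_comm (p ^ (k + 1)) (_ : ℤ), e,
        smul_comm (p ^ (k + 1)) ((b - a).appr (k + 1)), smul_comm (p ^ (k + 1)) (_ : ℤ), e]
      simp
    have h6 := per_inj p K h5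
    funext i
    have h7 := congrFun h6 i
    have h8 : (p ^ (k + 1) : ℕ) • l i = 0 := h7
    rw [nsmul_eq_mul] at h8
    rcases mul_eq_zero.1 h8 with h9 | h9
    · exfalso
      have : (p ^ (k + 1) : ℕ) ≠ 0 := pow_ne_zero _ hp.out.ne_zero
      exact this (by exact_mod_cast h9)
    · exact h9
  rw [h4, map_zero] at hl
  have h5 := congrFun hl 1
  have h6 : (0 : GmBar K) = p ^ k • ((1 : ℤ) • zeta p K (k + 1)) -
      (b - a).appr (k + 1) • ((0 : ℤ) • zeta p K (k + 1)) := h5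
  rw [one_smul, zero_smul, smul_zero, sub_zero, add_comm k 1, zeta_pow] at h6
  exact zeta_one_ne p K h6.symm

end Main

end Pool.Agent.W471
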