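import Pool.Agent.W471.TateMod

set_option autoImplicit false
set_option linter.unusedSectionVars false

open scoped TensorProduct

namespace Pool.Agent.W471

section Defs

variable {K : Type} [Field K] {g : ℕ}

variable (K) in
/-- The multiplicative group of an algebraic closure of `K`, written additively. -/
def GmBar : Type := Additive (AlgebraicClosure K)ˣ

noncomputable instance : AddCommGroup (GmBar K) :=
  (Additive.addCommGroup : AddCommGroup (Additive (AlgebraicClosure K)ˣ))

/-- The inclusion `K^× → Kbar^×`. -/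
noncomputable def unitsIncl : Kˣ →* (AlgebraicClosure K)ˣ :=
  Units.map (algebraMap K (AlgebraicClosure K)).toMonoidHom

/-- The inclusion `K^× → Kbar^×`, written additively (as a function). -/
noncomputable def toBarFun (x : Additive Kˣ) : GmBar K :=
  Additive.ofMul (unitsIncl (Additive.toMul x))

/-- The inclusion `K^× → Kbar^×`, written additively. -/
noncomputable def toBar : Additive Kˣ →+ GmBar K where
  toFun := toBarFun
  map_zero' := map_one unitsIncl
  map_add' a b := map_mul unitsIncl a.toMul b.toMul

variable (K) in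
/-- The absolute Galois group of `K`. -/
abbrev AbsGal : Type := AlgebraicClosure K ≃ₐ[K] AlgebraicClosure K

/-- The action of an automorphism of `Kbar` on the group `Kbar^×`. -/
noncomputable def unitsGal (σ : AbsGal K) : (AlgebraicClosure K)ˣ →* (AlgebraicClosure K)ˣ :=
  Units.map (σ : AlgebraicClosure K →* AlgebraicClosure K)

/-- The action of an automorphism of `Kbar` on the group `Kbar^×`, written additively (as a
function). -/
noncomputable def galBarFun (σ : AbsGal K) (x : GmBar K) : GmBar K :=
  Additive.ofMul (unitsGal σ (Additive.toMul x))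

/-- The action of an automorphism of `Kbar` on the group `Kbar^×`, written additively. -/
noncomputable def galBar (σ : AbsGal K) : GmBar K →+ GmBar K where
  toFun := galBarFun σ
  map_zero' := map_one (unitsGal σ)
  map_add' a b := map_mul (unitsGal σ) (Additive.toMul a) (Additive.toMul b)

/-- The period homomorphism `ℤ ^ g → T(K) ⊆ T(Kbar) = (Kbar^×) ^ g` of a period matrix
`Q = (q_ij)`: it sends `(l_1, ..., l_g)` to the point with coordinates
`∏_j q_ij ^ l_j` (written additively: `∑_j l_j q_ij`). -/
noncomputable def periodHom (Q : Matrix (Fin g) (Fin g) Kˣ) :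
    (Fin g → ℤ) →+ (Fin g → GmBar K) where
  toFun lam i := ∑ j, lam j • toBar (Additive.ofMul (Q i j))
  map_zero' := by
    funext i; simp
  map_add' a b := by
    funext i
    simp only [Pi.add_apply, add_smul, Finset.sum_add_distrib]

/-- The period lattice `Λ ⊆ T(Kbar)`. -/
noncomputable def periodLattice (Q : Matrix (Fin g) (Fin g) Kˣ) :
    AddSubgroup (Fin g → GmBar K) := (periodHom Q).range

/-- The group of `Kbar`-points `A(Kbar) = T(Kbar) / Λ` of the analytic torus with
period matrix `Q`. -/
def Points (Q : Matrix (Fin g) (Fin g) Kˣ) : Type :=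
  (Fin g → GmBar K) ⧸ periodLattice Q

noncomputable instance (Q : Matrix (Fin g) (Fin g) Kˣ) : AddCommGroup (Points Q) :=
  (QuotientAddGroup.Quotient.addCommGroup (periodLattice Q) :
    AddCommGroup ((Fin g → GmBar K) ⧸ periodLattice Q))

/-- The quotient map `T(Kbar) → A(Kbar)`. -/
noncomputable def toPoints (Q : Matrix (Fin g) (Fin g) Kˣ) : (Fin g → GmBar K) →+ Points Q :=
  QuotientAddGroup.mk' (periodLattice Q)

theorem toPoints_surj (Q : Matrix (Fin g) (Fin g) Kˣ) : Function.Surjective (toPoints Q) :=
  QuotientAddGroup.mk'_surjective _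

theorem toPoints_eq_zero (Q : Matrix (Fin g) (Fin g) Kˣ) (x : Fin g → GmBar K) :
    toPoints Q x = 0 ↔ x ∈ periodLattice Q := QuotientAddGroup.eq_zero_iff _

/-- The action of the absolute Galois group of `K` on `T(Kbar)`, coordinate by coordinate. -/
noncomputable def torusGal (σ : AbsGal K) :
    (Fin g → GmBar K) →+ (Fin g → GmBar K) where
  toFun x i := galBar σ (x i)
  map_zero' := by funext i; exact map_zero _
  map_add' a b := by funext i; exact map_add _ _ _

theorem torusGal_apply (σ : AbsGal K) (x : Fin g → GmBar K)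
    (i : Fin g) : torusGal σ x i = galBar σ (x i) := rfl

theorem gal_toBar (σ : AbsGal K) (x : Additive Kˣ) :
    galBar σ (toBar x) = toBar x := by
  apply Additive.toMul.injective
  apply Units.ext
  exact σ.commutes _

theorem torusGal_periodHom (σ : AbsGal K)
    (Q : Matrix (Fin g) (Fin g) Kˣ) (lam : Fin g → ℤ) :
    torusGal σ (periodHom Q lam) = periodHom Q lam := by
  funext i
  rw [torusGal_apply]
  show galBar σ (∑ j, lam j • toBar (Additive.ofMul (Q i j))) =
    ∑ j, lam j • toBar (Additive.ofMul (Q i j))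
  rw [map_sum]
  refine Finset.sum_congr rfl fun j _ => ?_
  rw [map_zsmul, gal_toBar]

theorem torusGal_lattice (σ : AbsGal K)
    (Q : Matrix (Fin g) (Fin g) Kˣ) :
    periodLattice Q ≤ (periodLattice Q).comap (torusGal σ) := by
  rintro _ ⟨lam, rfl⟩
  rw [AddSubgroup.mem_comap, torusGal_periodHom]
  exact ⟨lam, rfl⟩

/-- The action of the absolute Galois group of `K` on `A(Kbar) = T(Kbar) / Λ`. -/
noncomputable def galAct (Q : Matrix (Fin g) (Fin g) Kˣ)
    (σ : AbsGal K) : Points Q →+ Points Q :=
  QuotientAddGroup.map _ _ (torusGal σ) (torusGal_lattice σ Q)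

theorem galAct_toPoints (Q : Matrix (Fin g) (Fin g) Kˣ)
    (σ : AbsGal K) (x : Fin g → GmBar K) :
    galAct Q σ (toPoints Q x) = toPoints Q (torusGal σ x) := rfl

/-- The endomorphism of `T(Kbar) = (Kbar^×) ^ g` given by an integer matrix `N = (n_ij)`:
`(x_1, ..., x_g)` goes to the point with coordinates `∏_j x_j ^ n_ij`. These are all
endomorphisms of the algebraic torus `T`. -/
noncomputable def torusEnd (N : Matrix (Fin g) (Fin g) ℤ) :
    (Fin g → GmBar K) →+ (Fin g → GmBar K) where
  toFun x i := ∑ j, N i j • x j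
  map_zero' := by funext i; simp
  map_add' a b := by
    funext i
    simp only [Pi.add_apply, smul_add, Finset.sum_add_distrib]

/-- `f : A(Kbar) → A(Kbar)` is (given by) an endomorphism of `A = T / Λ`: it is induced by an
endomorphism of the torus `T` (which then maps `Λ` into `Λ`). -/
def IsEndo (Q : Matrix (Fin g) (Fin g) Kˣ) (f : Points Q →+ Points Q) : Prop :=
  ∃ N : Matrix (Fin g) (Fin g) ℤ, ∀ x : Fin g → GmBar K,
    f (toPoints Q x) = toPoints Q (torusEnd N x)

/-- Riemann's conditions for a principal polarization: the period matrix `Q` is symmetric and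
for every nonzero `l ∈ ℤ ^ g` the absolute value of `∏_(i,j) q_ij ^ (l_i l_j)` is less than `1`
(the absolute value of `K` is the unique extension of the one of `ℚ_p`). By the uniformization
theorem of Tate, Mumford and Raynaud, `T / Λ` is then a principally polarized abelian variety over
`K` with split totally multiplicative reduction. -/
def IsRiemann (p : ℕ) [Fact p.Prime] [Algebra ℚ_[p] K] (Q : Matrix (Fin g) (Fin g) Kˣ) : Prop :=
  (∀ i j, Q i j = Q j i) ∧ ∀ l : Fin g → ℤ, l ≠ 0 →
    spectralNorm ℚ_[p] K (∏ i, ∏ j, ((Q i j : Kˣ) : K) ^ (l i * l j)) < 1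

/-- The space `End(V_p(A))` of all `ℚ_p`-linear endomorphisms of `V_p(A)`. -/
def EndVp (p : ℕ) [Fact p.Prime] (Q : Matrix (Fin g) (Fin g) Kˣ) : Type :=
  RatTateModule p (Points Q) →ₗ[ℚ_[p]] RatTateModule p (Points Q)

noncomputable instance (p : ℕ) [Fact p.Prime] (Q : Matrix (Fin g) (Fin g) Kˣ) :
    AddCommGroup (EndVp p Q) :=
  (LinearMap.addCommGroup :
    AddCommGroup (RatTateModule p (Points Q) →ₗ[ℚ_[p]] RatTateModule p (Points Q)))

noncomputable instance (p : ℕ) [Fact p.Prime] (Q : Matrix (Fin g) (Fin g) Kˣ) :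
    Module ℚ_[p] (EndVp p Q) :=
  (LinearMap.module :
    Module ℚ_[p] (RatTateModule p (Points Q) →ₗ[ℚ_[p]] RatTateModule p (Points Q)))

/-- The endomorphism of `V_p(A)` induced by an endomorphism of the abelian group `A(Kbar)`. -/
noncomputable def onVp (p : ℕ) [Fact p.Prime] (Q : Matrix (Fin g) (Fin g) Kˣ)
    (f : Points Q →+ Points Q) : EndVp p Q := RatTateModule.map p f

/-- `φ`, an endomorphism of `V_p(A)`, commutes with the action of the absolute Galois group. -/
def IsGalEquivariant (p : ℕ) [Fact p.Prime] (Q : Matrix (Fin g) (Fin g) Kˣ)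
    (φ : RatTateModule p (Points Q) →ₗ[ℚ_[p]] RatTateModule p (Points Q)) : Prop :=
  ∀ σ : AbsGal K,
    φ ∘ₗ RatTateModule.map p (galAct Q σ) = RatTateModule.map p (galAct Q σ) ∘ₗ φ

/-- The `ℚ_p`-span in `End(V_p(A))` of the maps induced by the endomorphisms of `A`, i.e. the
image of `End(A) ⊗ ℚ_p → End(V_p(A))`. -/
noncomputable def endSpan (p : ℕ) [Fact p.Prime] (Q : Matrix (Fin g) (Fin g) Kˣ) :
    Submodule ℚ_[p] (EndVp p Q) :=
  Submodule.span ℚ_[p] {ψ | ∃ f : Points Q →+ Points Q, IsEndo Q f ∧ ψ = onVp p Q f}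

/-- The assertion of the `p`-adic Tate conjecture for `A = T / Λ`: every Galois equivariant
endomorphism of `V_p(A)` is in the image of `End(A) ⊗ ℚ_p`. -/
def TateConjFor (p : ℕ) [Fact p.Prime] (Q : Matrix (Fin g) (Fin g) Kˣ) : Prop :=
  ∀ φ : EndVp p Q, IsGalEquivariant p Q φ → φ ∈ endSpan p Q

end Defs

end Pool.Agent.W471
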