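import Mathlib

set_option autoImplicit false
set_option linter.unusedSectionVars false

open scoped TensorProduct

namespace Pool.Agent.W471

section General

variable (p : ℕ) [Fact p.Prime] (M : Type*) [AddCommGroup M]

/-- The `p`-adic Tate module `T_p(M)` of an abelian group `M`: the group of all sequences
`(x_0, x_1, x_2, ...)` in `M` with `x_0 = 0` and `p x_(n+1) = x_n` for all `n`
(so `x_n` is killed by `p ^ n`), i.e. the inverse limit of the groups `M[p ^ n]`
under multiplication by `p`. -/
def tateSubgroup : AddSubgroup (ℕ → M) where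
  carrier := {f | f 0 = 0 ∧ ∀ n, p • f (n + 1) = f n}
  zero_mem' := by simp
  add_mem' := by
    rintro a b ⟨ha, ha'⟩ ⟨hb, hb'⟩
    refine ⟨by simp [ha, hb], fun n => ?_⟩
    simp only [Pi.add_apply, smul_add, ha', hb']
  neg_mem' := by
    rintro a ⟨ha, ha'⟩
    refine ⟨by simp [ha], fun n => ?_⟩
    simp only [Pi.neg_apply, smul_neg, ha']

/-- The `p`-adic Tate module `T_p(M)` of an abelian group `M`, see `tateSubgroup`. -/
def TateModule : Type _ := tateSubgroup p M

noncomputable instance : AddCommGroup (TateModule p M) :=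
  (AddSubgroup.toAddCommGroup (tateSubgroup p M) : AddCommGroup (tateSubgroup p M))

variable {p M}

theorem tm_add (f g : TateModule p M) (n : ℕ) : (f + g).1 n = f.1 n + g.1 n := rfl

theorem tm_nsmul (k : ℕ) (f : TateModule p M) (n : ℕ) : (k • f).1 n = k • f.1 n := rfl

theorem tm_zero_apply (n : ℕ) : (0 : TateModule p M).1 n = 0 := rfl

theorem tm_zero (f : TateModule p M) : f.1 0 = 0 := f.2.1

theorem tm_succ (f : TateModule p M) (n : ℕ) :
    p • f.1 (n + 1) = f.1 n := f.2.2 n

theorem tm_pow_smul (f : TateModule p M) (n k : ℕ) :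
    p ^ k • f.1 (n + k) = f.1 n := by
  induction k with
  | zero => simp
  | succ k ih => rw [pow_succ, mul_smul, ← add_assoc, tm_succ f, ih]

theorem tm_torsion (f : TateModule p M) (n : ℕ) :
    p ^ n • f.1 n = 0 := by
  have := tm_pow_smul f 0 n
  rwa [zero_add, tm_zero f] at this

theorem nsmul_eq_of_zmod {x : M} {n : ℕ} (hx : p ^ n • x = 0) {a b : ℕ}
    (h : (a : ZMod (p ^ n)) = (b : ZMod (p ^ n))) : a • x = b • x := by
  rw [ZMod.natCast_eq_natCast_iff] at h
  have key : ∀ {a b : ℕ}, a ≤ b → a ≡ b [MOD p ^ n] → a • x = b • x := by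
    intro a b hab h
    obtain ⟨c, hc⟩ := (Nat.modEq_iff_dvd' hab).1 h
    have : b = a + p ^ n * c := by omega
    rw [this, add_smul, mul_comm, mul_smul, hx, smul_zero, add_zero]
  rcases le_total a b with hab | hab
  · exact key hab h
  · exact (key hab h.symm).symm

theorem appr_zmod (z : ℤ_[p]) (n : ℕ) : ((z.appr n : ℕ) : ZMod (p ^ n)) = PadicInt.toZModPow n z := by
  have h1 := PadicInt.appr_spec n z
  rw [← PadicInt.ker_toZModPow, RingHom.mem_ker, map_sub, map_natCast, sub_eq_zero] at h1
  exact h1.symm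

theorem appr_succ_zmod (z : ℤ_[p]) (n : ℕ) :
    ((z.appr (n + 1) : ℕ) : ZMod (p ^ n)) = ((z.appr n : ℕ) : ZMod (p ^ n)) := by
  have h1 := PadicInt.appr_spec (n + 1) z
  have h2 : z - (z.appr (n + 1) : ℕ) ∈ (Ideal.span {(p : ℤ_[p]) ^ n} : Ideal ℤ_[p]) := by
    refine Ideal.span_singleton_le_span_singleton.2 ?_ h1
    exact pow_dvd_pow _ (Nat.le_succ n)
  rw [← PadicInt.ker_toZModPow, RingHom.mem_ker, map_sub, map_natCast, sub_eq_zero] at h2
  rw [appr_zmod, h2]

noncomputable instance : SMul ℤ_[p] (TateModule p M) where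
  smul z f := ⟨fun n => (z.appr n) • f.1 n, by
    refine ⟨by simp [tm_zero f], fun n => ?_⟩
    show p • ((z.appr (n + 1)) • f.1 (n + 1)) = _
    rw [smul_comm, tm_succ f]
    exact nsmul_eq_of_zmod (tm_torsion f n) (appr_succ_zmod z n)⟩

theorem tm_smul_apply (z : ℤ_[p]) (f : TateModule p M) (n : ℕ) :
    (z • f : TateModule p M).1 n = (z.appr n) • f.1 n := rfl

theorem tm_smul_apply_eq (z : ℤ_[p]) (f : TateModule p M) (n a : ℕ)
    (h : (a : ZMod (p ^ n)) = PadicInt.toZModPow n z) :
    (z • f : TateModule p M).1 n = a • f.1 n := by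
  rw [tm_smul_apply]
  exact nsmul_eq_of_zmod (tm_torsion f n) ((appr_zmod z n).trans h.symm)

theorem tm_ext {f g : TateModule p M} (h : ∀ n, f.1 n = g.1 n) : f = g :=
  Subtype.ext (funext h)

/-- The `ℤ_p`-module structure of the Tate module: `z ∈ ℤ_p` multiplies the component `x_n`
by any integer congruent to `z` modulo `p ^ n`. -/
noncomputable instance : Module ℤ_[p] (TateModule p M) where
  one_smul f := tm_ext fun n => by
    rw [tm_smul_apply_eq 1 f n 1 (by simp), one_smul]
  mul_smul z w f := tm_ext fun n => by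
    rw [tm_smul_apply_eq (z * w) f n (z.appr n * w.appr n)
      (by push_cast; rw [appr_zmod, appr_zmod, map_mul]), mul_smul]
    rfl
  smul_zero z := tm_ext fun n => by
    rw [tm_smul_apply, tm_zero_apply, smul_zero]
  smul_add z f g := tm_ext fun n => by
    rw [tm_smul_apply]
    rw [tm_add, smul_add]
    rfl
  add_smul z w f := tm_ext fun n => by
    rw [tm_smul_apply_eq (z + w) f n (z.appr n + w.appr n)
      (by push_cast; rw [appr_zmod, appr_zmod, map_add]), add_smul]
    rfl
  zero_smul f := tm_ext fun n => by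
    rw [tm_smul_apply_eq 0 f n 0 (by simp), zero_smul]
    rfl

variable (p) in
/-- The `ℤ_p`-linear map of Tate modules induced by a homomorphism of abelian groups. -/
noncomputable def TateModule.map {N : Type*} [AddCommGroup N] (φ : M →+ N) :
    TateModule p M →ₗ[ℤ_[p]] TateModule p N where
  toFun f := ⟨fun n => φ (f.1 n), by
    refine ⟨by show φ _ = 0; rw [tm_zero f, map_zero], fun n => ?_⟩
    show p • φ _ = φ _
    rw [← map_nsmul, tm_succ f]⟩
  map_add' f g := tm_ext fun n => by
    show φ _ = _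
    rw [tm_add, map_add]
    rfl
  map_smul' z f := tm_ext fun n => by
    show φ _ = _
    rw [tm_smul_apply, map_nsmul]
    rfl

theorem tm_map_apply {N : Type*} [AddCommGroup N] (φ : M →+ N) (f : TateModule p M)
    (n : ℕ) : (TateModule.map p φ f : TateModule p N).1 n = φ (f.1 n) := rfl

variable (p M) in
/-- The rational Tate module `V_p(M) = ℚ_p ⊗ T_p(M)`. -/
def RatTateModule : Type _ := ℚ_[p] ⊗[ℤ_[p]] (TateModule p M)

noncomputable instance : AddCommGroup (RatTateModule p M) :=
  (TensorProduct.addCommGroup : AddCommGroup (ℚ_[p] ⊗[ℤ_[p]] (TateModule p M)))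

noncomputable instance : Module ℚ_[p] (RatTateModule p M) :=
  (TensorProduct.leftModule : Module ℚ_[p] (ℚ_[p] ⊗[ℤ_[p]] (TateModule p M)))

variable (p) in
/-- The `ℚ_p`-linear map of rational Tate modules induced by a homomorphism. -/
noncomputable def RatTateModule.map {N : Type*} [AddCommGroup N] (φ : M →+ N) :
    RatTateModule p M →ₗ[ℚ_[p]] RatTateModule p N :=
  (TateModule.map p φ).baseChange ℚ_[p]

end General

end Pool.Agent.W471
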